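import Pool.Agent.Hp428.LG.H

/-!
# MP_21d687_nt: quadratic twists near the central point, and the solutions of `L(s, π ⊗ χ_D) = w |D|^θ`

Let `π` be a cuspidal automorphic representation of `PGL_2(𝔸_F)` and `L_D(s) = L(s, π ⊗ χ_D)` for square-free `D`;
write `|D|` for `|N_{F/ℚ}(D)|`.  The L-functions `L_D`, as Euler products over the rational primes of degree
`m = 2 [F : ℚ]`, enter through their known analytic properties (`TwistFamily m`); the conductor of `L_D` is of the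
size `|D|^2` and its archimedean parameters are bounded.

Theorem.  Let `θ > 0` and let `w ≠ 0` be a complex number, for example `w = 1`.  The following are equivalent.
(i) `L_D(1/2 + it) ≪ |D|^(θ + ε)` for `|t| ≤ T`, for every `T` and `ε > 0`.
(ii) For all `T`, `δ, q > 0`: `|L_D(s)| < q |D|^θ` for `Re s ≥ 1/2 + δ`, `|Im s| ≤ T`, when `|D|` is large.
(iii) For all `T`, `δ, ε > 0`: when `|D|` is large, the number of solutions of `L_D(s) = w |D|^θ` with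
`1/2 + δ ≤ Re s ≤ 1`, `|Im s| ≤ T` is at most `ε log |D|`.

So the Lindelöf bound near the central point, `L_D(1/2 + it) ≪ |D|^ε` for `|t| ≤ T`, is equivalent to (iii) for all
`θ > 0`, and (iii) for all `θ > 0` implies the bound of the problem, `L_D(1/2) ≪ |D|^β` for every `β > 0`; if (iii)
holds for some `θ < 1/2` then the subconvex bound `L_D(1/2) ≪ |D|^(θ + ε)` holds.

Proof.  (i) implies (ii): convexity (Phragmén-Lindelöf) in a window.  (iii) implies (i): `1 - L_D(s) / (w |D|^θ)` is near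
`1` far to the right and has few zeros with `Re s ≥ 1/2 + δ`; after division by these zeros the three circles
theorem bounds it by `|D|^ε` to the right of the line; then the functional equation.  Modules `Pool.Agent.Hp428.LG`, on
top of the modules `Pool.Agent.W169.HF`.
-/

set_option autoImplicit false

open Complex
open scoped ComplexConjugate

namespace Pool.Agent.Results.MP_21d687_nt.LocalValues

/-- Analytic data of the L-functions `L(s, π ⊗ χ_D)`, `D` square-free, for a fixed cuspidal `π` on `PGL_2(𝔸_F)`;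
`m = 2 [F : ℚ]`.  All properties are known: Jacquet-Langlands; the conductor of `π ⊗ χ_D` is `|D|^2` up to
factors bounded in terms of `π`, and the archimedean parameters of `π ⊗ χ_D` are among finitely many. -/
structure TwistFamily (m : ℕ) where
  /-- the index set, the square-free `D` -/
  ι : Type
  /-- `|D| = |N_{F/ℚ}(D)|` -/
  nm : ι → ℝ
  /-- the conductor, the square of the discriminant of `F` times the norm of the conductor of `π ⊗ χ_D` -/
  N : ι → ℝ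
  /-- the archimedean parameters -/
  μ : ι → Fin m → ℂ
  /-- the Satake parameters -/
  α : ι → Fin m → ℕ → ℂ
  /-- the root number -/
  ε : ι → ℂ
  /-- the completed L-function -/
  Λ : ι → ℂ → ℂ
  /-- the bound for the constants of `π` -/
  c : ℝ
  one_le_c : 1 ≤ c
  one_le_nm : ∀ D, 1 ≤ nm D
  cond_le : ∀ D, N D ≤ c * nm D ^ 2
  le_cond : ∀ D, nm D ^ 2 ≤ c * N D
  norm_μ : ∀ D j, ‖μ D j‖ ≤ c
  one_le : ∀ D, 1 ≤ N D
  re_le : ∀ D j, (μ D j).re ≤ 1 / 2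
  norm_le : ∀ D j, ∀ p : ℕ, p.Prime → ‖α D j p‖ ≤ Real.sqrt p
  norm_eq : ∀ D, ‖ε D‖ = 1
  entire : ∀ D, Differentiable ℂ (Λ D)
  euler : ∀ D, ∀ s : ℂ, 3 / 2 < s.re → Λ D s = (∏ j, Gammaℝ (s - μ D j)) *
    ∏' p : Nat.Primes, ∏ j, (1 - α D j p * (p : ℂ) ^ (-s))⁻¹
  fe : ∀ D, ∀ s : ℂ, Λ D s = ε D * (N D : ℂ) ^ (1 / 2 - s) * conj (Λ D (1 - conj s))
  bdd : ∀ D, ∀ a b : ℝ, ∃ M, ∀ s : ℂ, a ≤ s.re → s.re ≤ b → ‖Λ D s‖ ≤ Real.exp (M * (1 + |s.im|))
  ne_zero : ∀ D, ∀ s : ℂ, 1 < s.re → Λ D s ≠ 0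

variable {m : ℕ}

/-- The (finite part of the) L-function `L(s, π ⊗ χ_D) = Λ_D(s) / ∏ Γ_ℝ(s - μ_j)`. -/
noncomputable def L (F : TwistFamily m) (D : F.ι) (s : ℂ) : ℂ := F.Λ D s * ∏ j, (Gammaℝ (s - F.μ D j))⁻¹

/-- `L_D(1/2 + i t) ≪ |D|^(θ + ε)` for `|t| ≤ T`, for all `T` and `ε > 0`. -/
def LocalSize (F : TwistFamily m) (θ : ℝ) : Prop :=
  ∀ T ε : ℝ, 0 < ε → ∃ B : ℝ, ∀ D : F.ι, ∀ t : ℝ, |t| ≤ T →
    ‖L F D (1 / 2 + (t : ℂ) * I)‖ ≤ B * F.nm D ^ (θ + ε)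

/-- For all `T`, `δ, q > 0` and `|D|` large: `|L_D(s)| < q |D|^θ` for `Re s ≥ 1/2 + δ`, `|Im s| ≤ T`. -/
def SmallValues (F : TwistFamily m) (θ : ℝ) : Prop :=
  ∀ T δ q : ℝ, 0 < δ → 0 < q → ∃ X₀ : ℝ, ∀ D : F.ι, X₀ ≤ F.nm D → ∀ s : ℂ, 1 / 2 + δ ≤ s.re → |s.im| ≤ T →
    ‖L F D s‖ < q * F.nm D ^ θ

/-- For all `T`, `δ, ε > 0` and `|D|` large: any finitely many solutions `s` of `L_D(s) = w |D|^θ` with
`1/2 + δ ≤ Re s ≤ 1`, `|Im s| ≤ T` have total multiplicity at most `ε log |D|`. -/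
def FewSolutions (F : TwistFamily m) (w : ℂ) (θ : ℝ) : Prop :=
  ∀ T δ ε : ℝ, 0 < δ → 0 < ε → ∃ X₀ : ℝ, ∀ D : F.ι, X₀ ≤ F.nm D → ∀ S : Finset ℂ,
    (∀ s ∈ S, L F D s = w * ((F.nm D ^ θ : ℝ) : ℂ) ∧ 1 / 2 + δ ≤ s.re ∧ s.re ≤ 1 ∧ |s.im| ≤ T) →
    ∑ s ∈ S, (analyticOrderNatAt (fun z => L F D z - w * ((F.nm D ^ θ : ℝ) : ℂ)) s : ℝ) ≤
      ε * Real.log (F.nm D)

open Pool.Agent.W169.HF
open Pool.Agent.Hp428.LG

lemma std (F : TwistFamily m) (D : F.ι) : Std (F.N D) (F.μ D) (F.α D) (F.ε D) (F.Λ D) :=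
  ⟨{ one_le := F.one_le D
     re_le := F.re_le D
     norm_le := fun j p hp => by
       rw [← Real.sqrt_eq_rpow]
       exact F.norm_le D j p hp
     norm_eq := F.norm_eq D
     entire := F.entire D
     euler := fun s hs => F.euler D s (by linarith)
     fe := F.fe D
     bdd := F.bdd D }, F.ne_zero D⟩

/-- the class of tuples -/
def cls (F : TwistFamily m) : Cls m := fun N μ α e Λ =>
  ∃ D : F.ι, F.N D = N ∧ F.μ D = μ ∧ F.α D = α ∧ F.ε D = e ∧ F.Λ D = Λ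

/-- the heights -/
def hts (T : ℝ) : Set ℝ := {y : ℝ | |y| ≤ T}

lemma nest : Nest hts := by
  intro T R y y' _ hy h
  have h1 : |y| ≤ T := hy
  change |y'| ≤ T + R
  have := abs_add_le y (y' - y)
  rw [add_sub_cancel] at this
  linarith

lemma L_eq (F : TwistFamily m) (D : F.ι) (s : ℂ) : LL (F.μ D) (F.Λ D) s = L F D s := rfl

/-- the analytic conductor and `|D|` -/
lemma cond_cmp (F : TwistFamily m) (T : ℝ) : ∃ K : ℝ, 1 ≤ K ∧ ∀ (D : F.ι) (y : ℝ), |y| ≤ T →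
    F.nm D ^ 2 ≤ K * cnd (F.N D) (F.μ D) y ∧ cnd (F.N D) (F.μ D) y ≤ K * F.nm D ^ 2 := by
  have hc := F.one_le_c
  have hT : 0 ≤ |T| := abs_nonneg T
  refine ⟨F.c * (1 + |T| + F.c) ^ m, ?_, fun D y hy => ?_⟩
  · have : 1 ≤ (1 + |T| + F.c) ^ m := one_le_pow₀ (by linarith)
    nlinarith
  have h1 : 1 ≤ (1 + |T| + F.c) ^ m := one_le_pow₀ (by linarith)
  have h2 := le_cnd (F.one_le D) (F.μ D) y
  have hN := F.one_le D
  have hcn := cnd_pos (F.one_le D) (F.μ D) y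
  constructor
  · calc F.nm D ^ 2 ≤ F.c * F.N D := F.le_cond D
      _ ≤ F.c * cnd (F.N D) (F.μ D) y := mul_le_mul_of_nonneg_left h2 (by linarith)
      _ ≤ F.c * (1 + |T| + F.c) ^ m * cnd (F.N D) (F.μ D) y := by
          apply mul_le_mul_of_nonneg_right _ (by linarith)
          exact le_mul_of_one_le_right (by linarith) h1
  · have h3 : ∏ j, (1 + ‖(y : ℂ) * I - F.μ D j‖) ≤ (1 + |T| + F.c) ^ m := by
      have h4 : ∏ j : Fin m, (1 + ‖(y : ℂ) * I - F.μ D j‖) ≤ ∏ _j : Fin m, (1 + |T| + F.c) := by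
        refine Finset.prod_le_prod (fun j _ => by positivity) fun j _ => ?_
        have h5 := norm_sub_le ((y : ℂ) * I) (F.μ D j)
        rw [norm_mul, Complex.norm_I, mul_one, Complex.norm_real, Real.norm_eq_abs] at h5
        have h6 := F.norm_μ D j
        have h7 := le_abs_self T
        linarith
      rwa [Finset.prod_const, Finset.card_univ, Fintype.card_fin] at h4
    unfold cnd
    have hnm : 0 ≤ F.nm D ^ 2 := by positivity
    calc F.N D * ∏ j, (1 + ‖(y : ℂ) * I - F.μ D j‖) ≤ (F.c * F.nm D ^ 2) * (1 + |T| + F.c) ^ m :=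
          mul_le_mul (F.cond_le D) h3 (Finset.prod_nonneg fun j _ => by positivity) (by positivity)
      _ = _ := by ring

lemma rpow_exp {x : ℝ} (hx : 1 ≤ x) (a : ℝ) : x ^ a = Real.exp (a * Real.log x) := by
  rw [Real.rpow_def_of_pos (by linarith), mul_comm]

/-- logarithms -/
lemma log_cmp (F : TwistFamily m) (T : ℝ) : ∃ k : ℝ, 0 ≤ k ∧ ∀ (D : F.ι) (y : ℝ), |y| ≤ T →
    |Real.log (cnd (F.N D) (F.μ D) y) - 2 * Real.log (F.nm D)| ≤ k := by
  obtain ⟨K, hK, H⟩ := cond_cmp F T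
  refine ⟨Real.log K, Real.log_nonneg hK, fun D y hy => ?_⟩
  obtain ⟨h1, h2⟩ := H D y hy
  have hn := F.one_le_nm D
  have hc := cnd_pos (F.one_le D) (F.μ D) y
  have h3 := Real.log_le_log (by positivity) h1
  have h4 := Real.log_le_log (by linarith) h2
  rw [Real.log_mul (by linarith) (by linarith), Real.log_pow] at h3
  rw [Real.log_mul (by linarith) (by positivity), Real.log_pow] at h4
  push_cast at h3 h4
  rw [abs_le]
  constructor <;> linarith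

lemma size_iff (F : TwistFamily m) {θ : ℝ} (hθ : 0 < θ) :
    LocalSize F θ ↔ ∀ T : ℝ, SY (cls F) (hts T) 0 (θ / 2) := by
  have e : ∀ y : ℝ, (1 / 2 + ((0 : ℝ) : ℂ) + (y : ℂ) * I : ℂ) = 1 / 2 + (y : ℂ) * I := fun y => by
    push_cast; ring
  constructor
  · intro h T ε hε
    obtain ⟨B, HB⟩ := h T (2 * ε) (by linarith)
    obtain ⟨k, hk, H⟩ := log_cmp F T
    have hB : 0 < max B 1 := lt_max_of_lt_right one_pos
    refine ⟨Real.log (max B 1) + (θ / 2 + ε) * k, ?_⟩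
    rintro N μ α e' Λ ⟨D, rfl, rfl, rfl, rfl, rfl⟩ _ y hy
    rw [e, L_eq]
    refine (HB D y hy).trans ?_
    have h1 := H D y hy
    rw [abs_le] at h1
    have hn := F.one_le_nm D
    rw [rpow_exp hn, Real.exp_add, Real.exp_add, Real.exp_log hB, mul_assoc, ← Real.exp_add]
    refine mul_le_mul (le_max_left _ _) (Real.exp_le_exp.2 ?_) (Real.exp_pos _).le hB.le
    have h2 : (θ / 2 + ε) * (2 * Real.log (F.nm D)) ≤ (θ / 2 + ε) * (k + Real.log (cnd (F.N D) (F.μ D) y)) :=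
      mul_le_mul_of_nonneg_left (by linarith) (by linarith)
    linarith
  · intro h T ε hε
    obtain ⟨B, HB⟩ := h T (ε / 2) (by linarith)
    obtain ⟨k, hk, H⟩ := log_cmp F T
    refine ⟨Real.exp (B + (θ / 2 + ε / 2) * k), fun D t ht => ?_⟩
    have h2 := HB (F.N D) (F.μ D) (F.α D) (F.ε D) (F.Λ D) ⟨D, rfl, rfl, rfl, rfl, rfl⟩ (std F D) t ht
    rw [e, L_eq] at h2
    refine h2.trans ?_
    have h1 := H D t ht
    rw [abs_le] at h1
    rw [rpow_exp (F.one_le_nm D), ← Real.exp_add]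
    apply Real.exp_le_exp.2
    have h3 : (θ / 2 + ε / 2) * Real.log (cnd (F.N D) (F.μ D) t) ≤ (θ / 2 + ε / 2) * (2 * Real.log (F.nm D) + k) :=
      mul_le_mul_of_nonneg_left (by linarith) (by linarith)
    linarith

/-- large `|D|` -/
lemma big (F : TwistFamily m) (T W : ℝ) : ∃ X0 : ℝ, ∀ (D : F.ι) (y : ℝ), |y| ≤ T → X0 ≤ F.nm D →
    W ≤ cnd (F.N D) (F.μ D) y := by
  obtain ⟨K, hK, H⟩ := cond_cmp F T
  refine ⟨max 1 (K * |W|), fun D y hy hX => ?_⟩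
  have h1 := (H D y hy).1
  have h2 := (le_max_left _ _).trans hX
  have h3 := (le_max_right _ _).trans hX
  have h4 : F.nm D ≤ F.nm D ^ 2 := by nlinarith
  have h5 : K * |W| ≤ K * cnd (F.N D) (F.μ D) y := by linarith
  exact (le_abs_self W).trans (le_of_mul_le_mul_left h5 (by linarith))

/-- large conductor -/
lemma big' (F : TwistFamily m) (T W : ℝ) : ∃ C0 : ℝ, ∀ (D : F.ι) (y : ℝ), |y| ≤ T →
    C0 ≤ cnd (F.N D) (F.μ D) y → W ≤ F.nm D := by
  obtain ⟨K, hK, H⟩ := cond_cmp F T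
  refine ⟨K * W ^ 2 + 1, fun D y hy hX => ?_⟩
  by_contra hcon
  push Not at hcon
  have h1 := (H D y hy).2
  have h2 := F.one_le_nm D
  have h3 : F.nm D ^ 2 ≤ W ^ 2 := by nlinarith
  have h4 : K * F.nm D ^ 2 ≤ K * W ^ 2 := mul_le_mul_of_nonneg_left h3 (by linarith)
  linarith

lemma small_of (hm : 1 ≤ m) (F : TwistFamily m) {θ : ℝ} (hθ : 0 < θ) (h : LocalSize F θ) : SmallValues F θ := by
  intro T δ q hδ hq
  have h1 := nv_of_sy hm nest (by linarith : 0 < θ / 2) ((size_iff F hθ).1 h) T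
  obtain ⟨k, hk, Hk⟩ := log_cmp F T
  obtain ⟨C0, H⟩ := h1 δ (q * Real.exp (-(θ / 2 * k))) hδ (by positivity)
  obtain ⟨X0, hX0⟩ := big F T C0
  refine ⟨X0, fun D hD s hs1 hs2 => ?_⟩
  have h2 := H (F.N D) (F.μ D) (F.α D) (F.ε D) (F.Λ D) ⟨D, rfl, rfl, rfl, rfl, rfl⟩ (std F D) s.im hs2
    (hX0 D s.im hs2 hD) s hs1 (by rw [sub_self, abs_zero]; norm_num)
  rw [L_eq] at h2
  refine lt_of_lt_of_le h2 ?_
  have hn := F.one_le_nm D
  rw [rpow_exp hn, rpow_exp (cnd_pos (F.one_le D) (F.μ D) s.im), mul_assoc, ← Real.exp_add]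
  apply mul_le_mul_of_nonneg_left _ hq.le
  apply Real.exp_le_exp.2
  have h3 := Hk D s.im hs2
  rw [abs_le] at h3
  have h4 : θ / 2 * Real.log (cnd (F.N D) (F.μ D) s.im) ≤ θ / 2 * (2 * Real.log (F.nm D) + k) :=
    mul_le_mul_of_nonneg_left (by linarith) (by linarith)
  linarith

lemma few_of (F : TwistFamily m) {θ : ℝ} {w : ℂ} (hw : w ≠ 0) (h : SmallValues F θ) :
    FewSolutions F w θ := by
  intro T δ ε hδ hε
  obtain ⟨X0, H⟩ := h T δ ‖w‖ hδ (norm_pos_iff.2 hw)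
  refine ⟨X0, fun D hD S hS => ?_⟩
  have hn := F.one_le_nm D
  have : S = ∅ := by
    rw [Finset.eq_empty_iff_forall_notMem]
    intro s hs
    obtain ⟨h1, h2, -, h4⟩ := hS s hs
    have h5 := H D hD s h2 h4
    rw [h1, norm_mul, Complex.norm_real, Real.norm_of_nonneg (by positivity)] at h5
    exact lt_irrefl _ h5
  rw [this, Finset.sum_empty]
  have : 0 ≤ Real.log (F.nm D) := Real.log_nonneg hn
  positivity

lemma size_of (hm : 1 ≤ m) (F : TwistFamily m) {θ : ℝ} (hθ : 0 < θ) {w : ℂ} (hw : w ≠ 0)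
    (h : FewSolutions F w θ) : LocalSize F θ := by
  rw [size_iff F hθ]
  refine sy_of_near hm nest (by linarith : 0 < θ / 2) fun η hη hη4 T => ?_
  refine sy_near hm (by linarith : 0 < θ / 2) hη hη4 ?_
  obtain ⟨k, hk, Hk⟩ := log_cmp F T
  have hwp : 0 < ‖w‖ := norm_pos_iff.2 hw
  obtain ⟨q, hq⟩ : ∃ q : ℝ, q = |Real.log ‖w‖| + θ / 2 * k := ⟨_, rfl⟩
  have hq0 : 0 ≤ q := by
    rw [hq]
    have := abs_nonneg (Real.log ‖w‖)
    positivity
  obtain ⟨ε0, C1, hε0, H⟩ := near_core hm (by linarith : 0 < θ / 2) q hq0 η hη hη4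
  obtain ⟨X0, hX0⟩ := h (T + 5) (η / 4) ε0 (by linarith) hε0
  obtain ⟨C2, hC2⟩ := big' F T (max X0 (Real.exp k))
  refine ⟨max C1 C2, ?_⟩
  rintro N μ α e' Λ ⟨D, rfl, rfl, rfl, rfl, rfl⟩ hS y hy hC
  have hy' : |y| ≤ T := hy
  have hn := F.one_le_nm D
  have hcn := cnd_pos (F.one_le D) (F.μ D) y
  have g := hC2 D y hy' ((le_max_right _ _).trans hC)
  have g1 := (le_max_left _ _).trans g
  have g2 := (le_max_right _ _).trans g
  have g3 : k ≤ Real.log (F.nm D) := by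
    rw [← Real.exp_le_exp, Real.exp_log (by linarith)]
    exact g2
  have h3 := Hk D y hy'
  rw [abs_le] at h3
  obtain ⟨c, hc⟩ : ∃ c : ℂ, c = w * ((F.nm D ^ θ : ℝ) : ℂ) := ⟨_, rfl⟩
  have hcn' : ‖c‖ = Real.exp (Real.log ‖w‖ + θ * Real.log (F.nm D)) := by
    rw [hc, norm_mul, Complex.norm_real, Real.norm_of_nonneg (by positivity), rpow_exp hn, Real.exp_add,
      Real.exp_log hwp]
  have hw1 := neg_abs_le (Real.log ‖w‖)
  have hw2 := le_abs_self (Real.log ‖w‖)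
  refine H (F.N D) (F.μ D) (F.α D) (F.ε D) (F.Λ D) hS y c ((le_max_left _ _).trans hC) ?_ ?_ ?_
  · rw [hcn', rpow_exp hcn, ← Real.exp_add, Real.exp_le_exp, hq]
    have h4 : θ / 2 * Real.log (cnd (F.N D) (F.μ D) y) ≤ θ / 2 * (2 * Real.log (F.nm D) + k) :=
      mul_le_mul_of_nonneg_left (by linarith) (by linarith)
    linarith
  · rw [hcn', rpow_exp hcn, ← Real.exp_add, Real.exp_le_exp, hq]
    have h4 : θ / 2 * (2 * Real.log (F.nm D) - k) ≤ θ / 2 * Real.log (cnd (F.N D) (F.μ D) y) :=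
      mul_le_mul_of_nonneg_left (by linarith) (by linarith)
    linarith
  · intro S hS'
    simp only [L_eq] at hS' ⊢
    rw [hc] at hS' ⊢
    refine (hX0 D g1 S fun s hs => ?_).trans ?_
    · obtain ⟨s1, s2, s3, s4⟩ := hS' s hs
      refine ⟨sub_eq_zero.1 s1, s2, s3, ?_⟩
      have := abs_add_le y (s.im - y)
      rw [add_sub_cancel] at this
      linarith
    · apply mul_le_mul_of_nonneg_left _ hε0.le
      linarith

/-- **Main theorem.** Let `π` be a cuspidal automorphic representation of `PGL_2(𝔸_F)`, given through the analytic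
data of its quadratic twists (`TwistFamily m`, `m = 2 [F : ℚ]`).  (1) For all `θ > 0` and `w ≠ 0` the conditions
`LocalSize F θ`, `SmallValues F θ` and `FewSolutions F w θ` are equivalent.  (2) If `FewSolutions F w θ` for all `θ > 0`
(`w` may depend on `θ`) then `L(1/2, π ⊗ χ_D) ≪ |D|^β` for every `β > 0`.  (3) If `FewSolutions F w θ` then
`L(1/2, π ⊗ χ_D) ≪ |D|^(θ + β)` for every `β > 0`. -/
theorem result (hm : 1 ≤ m) (F : TwistFamily m) :
    (∀ (θ : ℝ) (w : ℂ), 0 < θ → w ≠ 0 →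
      (LocalSize F θ ↔ SmallValues F θ) ∧ (LocalSize F θ ↔ FewSolutions F w θ)) ∧
    ((∀ θ : ℝ, 0 < θ → ∃ w : ℂ, w ≠ 0 ∧ FewSolutions F w θ) →
      ∀ β : ℝ, 0 < β → ∃ B : ℝ, ∀ D : F.ι, ‖L F D (1 / 2)‖ ≤ B * F.nm D ^ β) ∧
    ∀ (θ : ℝ) (w : ℂ), 0 < θ → w ≠ 0 → FewSolutions F w θ →
      ∀ β : ℝ, 0 < β → ∃ B : ℝ, ∀ D : F.ι, ‖L F D (1 / 2)‖ ≤ B * F.nm D ^ (θ + β) := by
  have k3 : ∀ (θ : ℝ) (w : ℂ), 0 < θ → w ≠ 0 → FewSolutions F w θ →
      ∀ β : ℝ, 0 < β → ∃ B : ℝ, ∀ D : F.ι, ‖L F D (1 / 2)‖ ≤ B * F.nm D ^ (θ + β) := by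
    intro θ w hθ hw h β hβ
    obtain ⟨B, HB⟩ := size_of hm F hθ hw h 0 β hβ
    refine ⟨B, fun D => ?_⟩
    have := HB D 0 (by rw [abs_zero])
    rwa [ofReal_zero, zero_mul, add_zero] at this
  refine ⟨fun θ w hθ hw => ⟨⟨small_of hm F hθ, fun h => size_of hm F hθ hw (few_of F hw h)⟩,
    ⟨fun h => few_of F hw (small_of hm F hθ h), size_of hm F hθ hw⟩⟩, fun h β hβ => ?_, k3⟩
  obtain ⟨w, hw, h1⟩ := h (β / 2) (by linarith)
  obtain ⟨B, HB⟩ := k3 (β / 2) w (by linarith) hw h1 (β / 2) (by linarith)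
  refine ⟨B, fun D => ?_⟩
  have := HB D
  rwa [add_halves] at this

end Pool.Agent.Results.MP_21d687_nt.LocalValues
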